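import Pool.Agent.W649.ZL.Avoid

/-!
Upper semicontinuous functions for the Zariski topology: the set of values is closed, satisfies the
ascending chain condition and has a small Cantor-Bendixson rank.
-/

set_option autoImplicit false

namespace Q23.AS

open MvPolynomial

universe z

section
variable {ι : Type z} [Fintype ι]

/-- A very general point of an irreducible variety. -/
theorem very_general (P : Ideal (MvPolynomial ι ℂ)) (hP : P.IsPrime)
    (f : ℕ → MvPolynomial ι ℂ) (hf : ∀ k, f k ∉ P) :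
    ∃ x : ι → ℂ, (∀ p ∈ P, aeval x p = 0) ∧ ∀ k, aeval x (f k) ≠ 0 := by
  classical
  have := hP
  have : IsDomain (MvPolynomial ι ℂ ⧸ P) := Ideal.Quotient.isDomain P
  obtain ⟨s, g, hg, hint⟩ := exists_integral_inj_algHom_of_fg ℂ (MvPolynomial ι ℂ ⧸ P)
  let : Algebra (MvPolynomial (Fin s) ℂ) (MvPolynomial ι ℂ ⧸ P) := g.toRingHom.toAlgebra
  have halg : algebraMap (MvPolynomial (Fin s) ℂ) (MvPolynomial ι ℂ ⧸ P) = g.toRingHom := rfl
  have hI : Algebra.IsIntegral (MvPolynomial (Fin s) ℂ) (MvPolynomial ι ℂ ⧸ P) :=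
    ⟨fun x => hint x⟩
  have h1 : ∀ k, ∃ q : MvPolynomial (Fin s) ℂ, q ≠ 0 ∧
      g q ∈ Ideal.span {Ideal.Quotient.mk P (f k)} := by
    intro k
    have hne : Ideal.Quotient.mk P (f k) ≠ 0 := fun h => hf k (Ideal.Quotient.eq_zero_iff_mem.1 h)
    have h2 := Ideal.comap_ne_bot_of_integral_mem (R := MvPolynomial (Fin s) ℂ) hne
      (Ideal.mem_span_singleton_self (Ideal.Quotient.mk P (f k)))
      (Algebra.IsIntegral.isIntegral _)
    obtain ⟨q, hq, hq0⟩ := Submodule.exists_mem_ne_zero_of_ne_bot h2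
    exact ⟨q, hq0, hq⟩
  choose q hq0 hq using h1
  obtain ⟨y, hy⟩ := Pool.Agent.W649.ZL.avoid q hq0
  have hmax : (vanishingIdeal ℂ ({y} : Set (Fin s → ℂ))).IsMaximal :=
    isMaximal_iff_eq_vanishingIdeal_singleton.2 ⟨y, rfl⟩
  obtain ⟨Q, hQ, hQy⟩ := Ideal.exists_ideal_over_maximal_of_isIntegral
    (S := MvPolynomial ι ℂ ⧸ P) (vanishingIdeal ℂ ({y} : Set (Fin s → ℂ))) (by
      intro p hp
      rw [RingHom.mem_ker, halg] at hp
      have : p = 0 := hg (by rw [map_zero]; exact hp)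
      rw [this]
      exact Submodule.zero_mem _)
  have hQ' : (Ideal.comap (Ideal.Quotient.mk P) Q).IsMaximal :=
    Ideal.comap_isMaximal_of_surjective _ Ideal.Quotient.mk_surjective
  obtain ⟨x, hx⟩ := isMaximal_iff_eq_vanishingIdeal_singleton.1 hQ'
  refine ⟨x, fun p hp => ?_, fun k hk => ?_⟩
  · have : p ∈ Ideal.comap (Ideal.Quotient.mk P) Q := by
      rw [Ideal.mem_comap, Ideal.Quotient.eq_zero_iff_mem.2 hp]
      exact Submodule.zero_mem _
    rw [hx] at this
    exact this x rfl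
  · have h3 : f k ∈ Ideal.comap (Ideal.Quotient.mk P) Q := by
      rw [hx]
      rintro _ rfl
      exact hk
    have h4 : g (q k) ∈ Q := by
      refine (Ideal.span_le.2 ?_) (hq k)
      rintro _ rfl
      exact h3
    have h5 : q k ∈ Ideal.comap (algebraMap (MvPolynomial (Fin s) ℂ) (MvPolynomial ι ℂ ⧸ P)) Q := h4
    rw [hQy] at h5
    have h6 := h5 y rfl
    apply hy k
    rwa [aeval_eq_eval] at h6

/-- upper semicontinuity for the Zariski topology -/
def USC (K : (ι → ℂ) → ℝ) : Prop :=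
  ∀ d : ℝ, zeroLocus ℂ (vanishingIdeal ℂ {p | d ≤ K p}) = {p | d ≤ K p}

theorem USC.acc {K : (ι → ℂ) → ℝ} (hK : USC K) (S : Set (ι → ℂ)) (hS : S.Nonempty) :
    ∃ p ∈ S, ∀ q ∈ S, K q ≤ K p := by
  let C : Set (Ideal (MvPolynomial ι ℂ)) :=
    {P | ∃ p ∈ S, P = vanishingIdeal ℂ {x | K p ≤ K x}}
  obtain ⟨p0, hp0⟩ := hS
  obtain ⟨P, ⟨p, hp, rfl⟩, hmax⟩ := set_has_maximal_iff_noetherian.2
    (inferInstance : IsNoetherian (MvPolynomial ι ℂ) (MvPolynomial ι ℂ)) C ⟨_, p0, hp0, rfl⟩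
  refine ⟨p, hp, fun q hq => ?_⟩
  by_contra hcon
  push Not at hcon
  have hsub : {x | K q ≤ K x} ⊆ {x | K p ≤ K x} := fun x hx => hcon.le.trans hx
  have hle : vanishingIdeal ℂ {x | K p ≤ K x} ≤ vanishingIdeal ℂ {x | K q ≤ K x} :=
    vanishingIdeal_anti_mono hsub
  have heq : vanishingIdeal ℂ {x | K p ≤ K x} = vanishingIdeal ℂ {x | K q ≤ K x} := by
    by_contra hne
    exact hmax _ ⟨q, hq, rfl⟩ (lt_of_le_of_ne hle hne)
  have hloc : {x | K p ≤ K x} = {x | K q ≤ K x} := by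
    rw [← hK (K p), ← hK (K q), heq]
  have hmem : p ∈ {x | K p ≤ K x} := le_refl (K p)
  rw [hloc] at hmem
  have h1 : K q ≤ K p := hmem
  linarith

/-- On an irreducible variety on which `K` is at least `d` and takes values arbitrarily close to
`d`, the value `d` is attained. -/
theorem USC.attain {K : (ι → ℂ) → ℝ} (hK : USC K) (P : Ideal (MvPolynomial ι ℂ)) (hP : P.IsPrime)
    (d : ℝ) (h1 : ∀ x ∈ zeroLocus ℂ P, d ≤ K x)
    (h2 : ∀ ε : ℝ, 0 < ε → ∃ x ∈ zeroLocus ℂ P, K x < d + ε) :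
    ∃ x ∈ zeroLocus ℂ P, K x = d := by
  have h3 : ∀ k : ℕ, ∃ f : MvPolynomial ι ℂ,
      f ∈ vanishingIdeal ℂ {p | d + 1 / ((k : ℝ) + 1) ≤ K p} ∧ f ∉ P := by
    intro k
    obtain ⟨x, hx, hxK⟩ := h2 (1 / ((k : ℝ) + 1)) (by positivity)
    by_contra hcon
    push Not at hcon
    have h4 : x ∈ zeroLocus ℂ (vanishingIdeal ℂ {p | d + 1 / ((k : ℝ) + 1) ≤ K p}) :=
      fun p hp => hx p (hcon p hp)
    rw [hK] at h4
    have h5 : d + 1 / ((k : ℝ) + 1) ≤ K x := h4
    linarith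
  choose f hf hfP using h3
  obtain ⟨x, hx, hxf⟩ := very_general P hP f hfP
  refine ⟨x, hx, le_antisymm ?_ (h1 x hx)⟩
  by_contra hcon
  push Not at hcon
  obtain ⟨k, hk⟩ := exists_nat_one_div_lt (sub_pos.2 hcon)
  apply hxf k
  apply hf k
  change d + 1 / ((k : ℝ) + 1) ≤ K x
  linarith

/-- **The set of values is closed.** -/
theorem USC.isClosed_range {K : (ι → ℂ) → ℝ} (hK : USC K) : IsClosed (Set.range K) := by
  classical
  rw [← closure_subset_iff_isClosed]
  intro d hd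
  by_contra hdV
  rw [Metric.mem_closure_iff] at hd
  -- there are values a little larger than `d`
  have hup : ∀ ε : ℝ, 0 < ε → ∃ x, d ≤ K x ∧ K x < d + ε := by
    by_cases hlow : ∃ x, K x < d
    · obtain ⟨x0, hx0⟩ := hlow
      obtain ⟨p, hp, hmax⟩ := hK.acc {x | K x < d} ⟨x0, hx0⟩
      intro ε hε
      have hp' : K p < d := hp
      obtain ⟨_, ⟨x, rfl⟩, hx⟩ := hd (min ε (d - K p)) (lt_min hε (by linarith))
      rw [Real.dist_eq, abs_lt] at hx
      refine ⟨x, ?_, ?_⟩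
      · by_contra hcon
        push Not at hcon
        have := hmax x hcon
        have h3 := min_le_right ε (d - K p)
        linarith [hx.2]
      · have h3 := min_le_left ε (d - K p)
        linarith [hx.1]
    · push Not at hlow
      intro ε hε
      obtain ⟨_, ⟨x, rfl⟩, hx⟩ := hd ε hε
      rw [Real.dist_eq, abs_lt] at hx
      exact ⟨x, hlow x, by linarith [hx.1]⟩
  let C : Set (Ideal (MvPolynomial ι ℂ)) :=
    {P | ∃ T : Set (ι → ℂ), P = vanishingIdeal ℂ T ∧ (∀ x ∈ T, d ≤ K x) ∧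
      ∀ ε : ℝ, 0 < ε → ∃ x ∈ T, K x < d + ε}
  obtain ⟨P, ⟨T, hPT, hT1, hT2⟩, hmax⟩ := set_has_maximal_iff_noetherian.2
    (inferInstance : IsNoetherian (MvPolynomial ι ℂ) (MvPolynomial ι ℂ)) C
    ⟨_, {x | d ≤ K x}, rfl, fun x hx => hx, hup⟩
  have hprime : Ideal.IsPrime P := by
    refine ⟨?_, ?_⟩
    · intro htop
      obtain ⟨x, hx, -⟩ := hT2 1 one_pos
      have h1 : (1 : MvPolynomial ι ℂ) ∈ vanishingIdeal ℂ T := by
        rw [← hPT, htop]; exact Submodule.mem_top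
      have h2 := h1 x hx
      rw [map_one] at h2
      exact one_ne_zero h2
    · intro f g hfg
      have hone : ∀ f : MvPolynomial ι ℂ,
          (∀ ε : ℝ, 0 < ε → ∃ x ∈ T ∩ {p | aeval p f = 0}, K x < d + ε) → f ∈ P := by
        intro f hk
        by_contra hf
        apply hmax (vanishingIdeal ℂ (T ∩ {p | aeval p f = 0}))
          ⟨_, rfl, fun x hx => hT1 x hx.1, hk⟩
        refine lt_of_le_of_ne ?_ ?_
        · rw [hPT]; exact vanishingIdeal_anti_mono Set.inter_subset_left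
        · intro heq
          apply hf
          rw [heq]
          intro p hp
          exact hp.2
      by_cases h1 : ∀ ε : ℝ, 0 < ε → ∃ x ∈ T ∩ {p | aeval p f = 0}, K x < d + ε
      · exact Or.inl (hone f h1)
      · right
        apply hone g
        push Not at h1
        obtain ⟨ε0, hε0, h1⟩ := h1
        intro ε hε
        obtain ⟨x, hx, hxK⟩ := hT2 (min ε ε0) (lt_min hε hε0)
        refine ⟨x, ⟨hx, ?_⟩, lt_of_lt_of_le hxK (by linarith [min_le_left ε ε0])⟩
        have h2 : aeval x f ≠ 0 := by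
          intro h3
          have := h1 x ⟨hx, h3⟩
          linarith [min_le_right ε ε0]
        have h4 : aeval x (f * g) = 0 := by
          rw [hPT] at hfg
          exact hfg x hx
        rw [map_mul] at h4
        exact (mul_eq_zero.1 h4).resolve_left h2
  have hTP : ∀ x ∈ T, x ∈ zeroLocus ℂ P := by
    intro x hx p hp
    rw [hPT] at hp
    exact hp x hx
  have hPd : ∀ x ∈ zeroLocus ℂ P, d ≤ K x := by
    intro x hx
    have h1 : x ∈ zeroLocus ℂ (vanishingIdeal ℂ {p | d ≤ K p}) := by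
      intro p hp
      apply hx
      rw [hPT]
      exact fun y hy => hp y (hT1 y hy)
    rw [hK] at h1
    exact h1
  obtain ⟨x, -, hx⟩ := hK.attain P hprime d hPd fun ε hε => by
    obtain ⟨x, hx, hxK⟩ := hT2 ε hε
    exact ⟨x, hTP x hx, hxK⟩
  exact hdV ⟨x, hx⟩

end

end Q23.AS
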