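import Pool.Agent.Q23.AS.N1

/-!
The Cantor-Bendixson rank of the set of values of an upper semicontinuous function.
-/

set_option autoImplicit false

namespace Q23.AS

open MvPolynomial Topology

universe z

section iter

/-- iterated derived sets of a set of real numbers -/
def ds (r : ℕ) (A : Set ℝ) : Set ℝ := (derivedSet : Set ℝ → Set ℝ)^[r] A

theorem ds_zero (A : Set ℝ) : ds 0 A = A := rfl

theorem ds_succ (r : ℕ) (A : Set ℝ) : ds (r + 1) A = derivedSet (ds r A) :=
  Function.iterate_succ_apply' _ _ _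

theorem ds_mono (r : ℕ) {A B : Set ℝ} (h : A ⊆ B) : ds r A ⊆ ds r B := by
  induction r with
  | zero => exact h
  | succ r ih =>
    rw [ds_succ, ds_succ]
    exact derivedSet_mono _ _ ih

theorem ds_union (r : ℕ) (A B : Set ℝ) : ds r (A ∪ B) = ds r A ∪ ds r B := by
  induction r with
  | zero => rfl
  | succ r ih => rw [ds_succ, ds_succ, ds_succ, ih, derivedSet_union]

theorem derivedSet_empty' : derivedSet (∅ : Set ℝ) = ∅ := by
  have h := derivedSet_subset_closure (∅ : Set ℝ)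
  rw [closure_empty] at h
  exact Set.subset_empty_iff.1 h

theorem ds_empty (r : ℕ) : ds r ∅ = ∅ := by
  induction r with
  | zero => rfl
  | succ r ih => rw [ds_succ, ih, derivedSet_empty']

theorem derivedSet_singleton (g : ℝ) : derivedSet ({g} : Set ℝ) = ∅ := by
  rw [Set.eq_empty_iff_forall_notMem]
  intro x hx
  have hxg : x = g := by
    have := derivedSet_subset_closure _ hx
    rw [closure_singleton] at this
    exact this
  subst hxg
  rw [mem_derivedSet, accPt_iff_nhds] at hx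
  obtain ⟨y, ⟨-, hy⟩, hy'⟩ := hx Set.univ Filter.univ_mem
  exact hy' hy

theorem ds_subset_closure (r : ℕ) (A : Set ℝ) : ds r A ⊆ closure A := by
  induction r with
  | zero => exact subset_closure
  | succ r ih =>
    rw [ds_succ]
    exact (derivedSet_subset_closure _).trans (closure_minimal ih isClosed_closure)

theorem ds_biUnion {X : Type*} (r : ℕ) (s : Finset X) (A : X → Set ℝ)
    (h : ∀ i ∈ s, ds r (A i) = ∅) : ds r (⋃ i ∈ s, A i) = ∅ := by
  classical
  induction s using Finset.induction_on with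
  | empty => simp [ds_empty]
  | insert a s ha ih =>
    rw [Finset.set_biUnion_insert, ds_union, h a (Finset.mem_insert_self a s),
      ih (fun i hi => h i (Finset.mem_insert_of_mem hi)), Set.union_empty]

theorem ds_local (r : ℕ) (A : Set ℝ) {x a : ℝ} (hx : a < x) (h : x ∈ ds r A) :
    x ∈ ds r (A ∩ Set.Ici a) := by
  have h1 : A = (A ∩ Set.Ici a) ∪ (A ∩ Set.Iio a) := by
    rw [← Set.inter_union_distrib_left]
    rw [Set.Ici_union_Iio, Set.inter_univ]
  rw [h1, ds_union] at h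
  rcases h with h | h
  · exact h
  · exfalso
    have h2 := ds_subset_closure r _ h
    have h3 : closure (A ∩ Set.Iio a) ⊆ Set.Iic a :=
      closure_minimal (fun y hy => (show y < a from hy.2).le) isClosed_Iic
    have h4 : x ≤ a := h3 h2
    linarith

end iter

section
variable {ι : Type z} [Fintype ι]

theorem zeroLocus_nonempty (P : Ideal (MvPolynomial ι ℂ)) (hP : P.IsPrime) :
    (zeroLocus ℂ P).Nonempty := by
  obtain ⟨x, hx, -⟩ := very_general P hP (fun _ => 1) (fun _ h =>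
    hP.ne_top ((Ideal.eq_top_iff_one P).2 h))
  exact ⟨x, hx⟩

/-- the minimum is attained -/
theorem USC.exists_min {K : (ι → ℂ) → ℝ} (hK : USC K) (P : Ideal (MvPolynomial ι ℂ))
    (hP : P.IsPrime) (c : ℝ) (hc : ∀ x ∈ zeroLocus ℂ P, c ≤ K x) :
    ∃ x ∈ zeroLocus ℂ P, ∀ y ∈ zeroLocus ℂ P, K x ≤ K y := by
  obtain ⟨x0, hx0⟩ := zeroLocus_nonempty P hP
  have hne : (K '' zeroLocus ℂ P).Nonempty := ⟨_, x0, hx0, rfl⟩
  have hbd : BddBelow (K '' zeroLocus ℂ P) := ⟨c, by rintro _ ⟨x, hx, rfl⟩; exact hc x hx⟩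
  obtain ⟨x, hx, hxK⟩ := hK.attain P hP (sInf (K '' zeroLocus ℂ P))
    (fun x hx => csInf_le hbd ⟨x, hx, rfl⟩) (fun ε hε => by
      obtain ⟨_, ⟨x, hx, rfl⟩, hlt⟩ := exists_lt_of_csInf_lt hne
        (lt_add_of_pos_right (sInf (K '' zeroLocus ℂ P)) hε)
      exact ⟨x, hx, hlt⟩)
  refine ⟨x, hx, fun y hy => ?_⟩
  rw [hxK]
  exact csInf_le hbd ⟨y, hy, rfl⟩

theorem zeroLocus_minimalPrimes (I : Ideal (MvPolynomial ι ℂ)) :
    ∃ s : Finset (Ideal (MvPolynomial ι ℂ)), (∀ Q ∈ s, Q.IsPrime ∧ I ≤ Q) ∧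
      zeroLocus ℂ I = ⋃ Q ∈ s, zeroLocus ℂ Q := by
  classical
  have hfin := Ideal.finite_minimalPrimes_of_isNoetherianRing (MvPolynomial ι ℂ) I
  refine ⟨hfin.toFinset, fun Q hQ => ?_, ?_⟩
  · rw [Set.Finite.mem_toFinset] at hQ
    exact hQ.1
  · ext x
    simp only [Set.mem_iUnion]
    constructor
    · intro hx
      have h1 : I ≤ vanishingIdeal ℂ {x} := by
        intro p hp
        rintro _ rfl
        exact hx p hp
      obtain ⟨Q, hQ, hle⟩ := Ideal.exists_minimalPrimes_le h1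
      refine ⟨Q, hfin.mem_toFinset.2 hQ, fun p hp => ?_⟩
      exact hle hp x rfl
    · rintro ⟨Q, hQ, hx⟩ p hp
      rw [Set.Finite.mem_toFinset] at hQ
      exact hx p (hQ.1.2 hp)

theorem USC.rank {K : (ι → ℂ) → ℝ} (hK : USC K) (c : ℝ) (hc : ∀ x, c ≤ K x) (r : ℕ) :
    ∀ P : PrimeSpectrum (MvPolynomial ι ℂ), Order.coheight P ≤ r →
      ∀ x0 ∈ zeroLocus ℂ P.asIdeal, (∀ y ∈ zeroLocus ℂ P.asIdeal, K x0 ≤ K y) →
      ds r (K '' zeroLocus ℂ P.asIdeal) ⊆ {K x0} := by
  classical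
  induction r with
  | zero =>
    intro P hP x0 hx0 _
    have h1 : Order.coheight P = 0 := by
      have : Order.coheight P ≤ 0 := by exact_mod_cast hP
      exact le_antisymm this bot_le
    have h2 : P.asIdeal.IsMaximal := (PrimeSpectrum.isMax_iff).1 (Order.coheight_eq_zero.1 h1)
    obtain ⟨x, hx⟩ := isMaximal_iff_eq_vanishingIdeal_singleton.1 h2
    have h3 : ∀ y ∈ zeroLocus ℂ P.asIdeal, y = x := by
      intro y hy
      funext i
      have h4 : (X i - C (x i) : MvPolynomial ι ℂ) ∈ P.asIdeal := by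
        rw [hx]
        rintro _ rfl
        simp
      have h5 := hy _ h4
      simpa [sub_eq_zero] using h5
    rw [ds_zero]
    rintro _ ⟨y, hy, rfl⟩
    rw [h3 y hy, h3 x0 hx0]
    rfl
  | succ r ih =>
    intro P hP x0 hx0 hmin x hx
    by_contra hne
    have hne' : x ≠ K x0 := hne
    have hge : K x0 ≤ x := by
      have h1 := ds_subset_closure _ _ hx
      have h2 : closure (K '' zeroLocus ℂ P.asIdeal) ⊆ Set.Ici (K x0) :=
        closure_minimal (by rintro _ ⟨y, hy, rfl⟩; exact hmin y hy) isClosed_Ici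
      exact h2 h1
    have hlt : K x0 < x := lt_of_le_of_ne hge hne'.symm
    set a := (K x0 + x) / 2 with ha
    have ha1 : K x0 < a := by rw [ha]; linarith
    have ha2 : a < x := by rw [ha]; linarith
    have hloc := ds_local _ _ ha2 hx
    obtain ⟨s, hs, hsI⟩ := zeroLocus_minimalPrimes (P.asIdeal ⊔ vanishingIdeal ℂ {p | a ≤ K p})
    have hI : zeroLocus ℂ (P.asIdeal ⊔ vanishingIdeal ℂ {p | a ≤ K p})
        = zeroLocus ℂ P.asIdeal ∩ {p | a ≤ K p} := by
      ext y
      constructor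
      · intro hy
        refine ⟨fun p hp => hy p (Ideal.mem_sup_left hp), ?_⟩
        have h1 : y ∈ zeroLocus ℂ (vanishingIdeal ℂ {p | a ≤ K p}) :=
          fun p hp => hy p (Ideal.mem_sup_right hp)
        rw [hK] at h1
        exact h1
      · rintro ⟨hy1, hy2⟩ p hp
        obtain ⟨u, hu, v, hv, rfl⟩ := Submodule.mem_sup.1 hp
        rw [map_add, hy1 u hu, hv y hy2, add_zero]
    have hset : K '' zeroLocus ℂ P.asIdeal ∩ Set.Ici a = ⋃ Q ∈ s, K '' zeroLocus ℂ Q := by
      have h1 : K '' zeroLocus ℂ P.asIdeal ∩ Set.Ici a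
          = K '' (zeroLocus ℂ P.asIdeal ∩ {p | a ≤ K p}) := by
        ext y
        constructor
        · rintro ⟨⟨p, hp, rfl⟩, hy⟩
          exact ⟨p, ⟨hp, hy⟩, rfl⟩
        · rintro ⟨p, ⟨hp, hy⟩, rfl⟩
          exact ⟨⟨p, hp, rfl⟩, hy⟩
      rw [h1, ← hI, hsI, Set.image_iUnion₂]
    rw [hset, ds_biUnion] at hloc
    · exact hloc
    · intro Q hQ
      obtain ⟨hQp, hQI⟩ := hs Q hQ
      have hPQ : P < (⟨Q, hQp⟩ : PrimeSpectrum (MvPolynomial ι ℂ)) := by
        refine lt_of_le_of_ne (fun p hp => hQI (Ideal.mem_sup_left hp)) ?_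
        intro heq
        have h1 : P.asIdeal = Q := congrArg PrimeSpectrum.asIdeal heq
        have h2 : x0 ∈ zeroLocus ℂ (vanishingIdeal ℂ {p | a ≤ K p}) := by
          intro p hp
          apply hx0
          rw [h1]
          exact hQI (Ideal.mem_sup_right hp)
        rw [hK] at h2
        have h3 : a ≤ K x0 := h2
        linarith
      have hco : Order.coheight (⟨Q, hQp⟩ : PrimeSpectrum (MvPolynomial ι ℂ)) ≤ r := by
        have h1 := (Order.coheight_add_one_le hPQ).trans hP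
        rw [Nat.cast_add, Nat.cast_one] at h1
        exact (ENat.add_le_add_iff_right (by simp)).1 h1
      obtain ⟨y, hy, hymin⟩ := hK.exists_min Q hQp c (fun x _ => hc x)
      have h1 := ih ⟨Q, hQp⟩ hco y hy hymin
      rw [ds_succ]
      refine Set.subset_empty_iff.1 ?_
      rw [← derivedSet_singleton (K y)]
      exact derivedSet_mono _ _ h1

/-- **The derived set of order equal to the number of variables has at most one point**, the
minimum. -/
theorem USC.rank_range {K : (ι → ℂ) → ℝ} (hK : USC K) (c : ℝ) (hc : ∀ x, c ≤ K x) :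
    ∃ x0, (∀ y, K x0 ≤ K y) ∧ ds (Fintype.card ι) (Set.range K) ⊆ {K x0} := by
  have huniv : zeroLocus ℂ (⊥ : Ideal (MvPolynomial ι ℂ)) = Set.univ := by
    ext x
    refine ⟨fun _ => trivial, fun _ p hp => ?_⟩
    rw [Ideal.mem_bot.1 hp, map_zero]
  obtain ⟨x0, -, hx0⟩ := hK.exists_min ⊥ Ideal.isPrime_bot c (fun x _ => hc x)
  have hx0' : ∀ y, K x0 ≤ K y := fun y => hx0 y (by rw [huniv]; trivial)
  refine ⟨x0, hx0', ?_⟩
  have h1 := hK.rank c hc (Fintype.card ι) ⟨⊥, Ideal.isPrime_bot⟩ ?_ x0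
    (by change x0 ∈ zeroLocus ℂ (⊥ : Ideal (MvPolynomial ι ℂ)); rw [huniv]; trivial)
    (fun y _ => hx0' y)
  · change ds (Fintype.card ι) (K '' zeroLocus ℂ (⊥ : Ideal (MvPolynomial ι ℂ))) ⊆ _ at h1
    rwa [huniv, Set.image_univ] at h1
  · have h2 := Order.coheight_le_krullDim
      (⟨⊥, Ideal.isPrime_bot⟩ : PrimeSpectrum (MvPolynomial ι ℂ))
    have h3 : Order.krullDim (PrimeSpectrum (MvPolynomial ι ℂ)) = (Fintype.card ι : ℕ) := by
      have h4 := MvPolynomial.ringKrullDim_of_isNoetherianRing (R := ℂ) (ι := ι)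
      rw [ringKrullDim_eq_zero_of_field, zero_add, Nat.card_eq_fintype_card] at h4
      exact h4
    rw [h3] at h2
    exact_mod_cast h2

end

end Q23.AS
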