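import Pool.Agent.W656.VA8

/-!
One-parameter polynomial families of matrices: the sum of the excesses of the kernel dimensions.
-/

set_option autoImplicit false
set_option linter.unusedSectionVars false

open scoped InnerProductSpace ENNReal
open Filter Topology

namespace Q23.AS

open Pool.Agent.W656.VA
open Pool.Agent.H80R2
open Pool.Agent.H80R2.BC (L2 GMat vdim IsTr LInv Equi act kerA Coef)
open Pool.Agent.H812R3

/-! ### power sums -/

section lin
variable {X E F : Type*} [Fintype X] [AddCommGroup E] [Module ℂ E] [AddCommGroup F] [Module ℂ F]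

theorem vanish (B : ℕ → E →ₗ[ℂ] F) (e : ℕ) (Q : Submodule ℂ E)
    (hQ : ∀ y ∈ Q, B e y = 0 → y = 0) (t : X → ℂ) (ht : Function.Injective t) (y : X → E)
    (hy : ∀ x, y x ∈ Q) (hB : ∀ x, ∑ j ∈ Finset.range (e + 1), t x ^ j • B j (y x) = 0)
    (h0 : ∀ j < e, ∑ x, t x ^ j • y x = 0) : ∀ x, y x = 0 := by
  classical
  have hpow : ∀ k, ∑ x, t x ^ k • y x = 0 := by
    intro k
    induction k using Nat.strong_induction_on with
    | _ k ih =>
      by_cases hk : k < e
      · exact h0 k hk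
      · obtain ⟨i, rfl⟩ : ∃ i, k = i + e := ⟨k - e, by omega⟩
        apply hQ _ (Submodule.sum_mem _ fun x _ => Q.smul_mem _ (hy x))
        have h1 : ∑ x, t x ^ i • (∑ j ∈ Finset.range (e + 1), t x ^ j • B j (y x)) = 0 :=
          Finset.sum_eq_zero fun x _ => by rw [hB x, smul_zero]
        have h2 : ∑ x, t x ^ i • (∑ j ∈ Finset.range (e + 1), t x ^ j • B j (y x))
            = ∑ j ∈ Finset.range (e + 1), B j (∑ x, t x ^ (i + j) • y x) := by
          simp only [map_sum, map_smul, Finset.smul_sum, smul_smul, ← pow_add]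
          exact Finset.sum_comm
        rw [h2, Finset.sum_range_succ, Finset.sum_eq_zero, zero_add] at h1
        · exact h1
        · intro j hj
          rw [Finset.mem_range] at hj
          rw [ih (i + j) (by omega), map_zero]
  have hpol : ∀ p : Polynomial ℂ, ∑ x, p.eval (t x) • y x = 0 := by
    intro p
    have : ∀ x, p.eval (t x) • y x = ∑ j ∈ p.support, p.coeff j • (t x ^ j • y x) := by
      intro x
      rw [Polynomial.eval_eq_sum, Polynomial.sum, Finset.sum_smul]
      exact Finset.sum_congr rfl fun j _ => by rw [smul_smul]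
    rw [Finset.sum_congr rfl fun x _ => this x, Finset.sum_comm]
    refine Finset.sum_eq_zero fun j _ => ?_
    rw [← Finset.smul_sum, hpow, smul_zero]
  intro x
  have h1 := hpol (∏ x' ∈ Finset.univ.erase x, (Polynomial.X - Polynomial.C (t x')))
  rw [Finset.sum_eq_single x] at h1
  · refine (smul_eq_zero.1 h1).resolve_left ?_
    rw [Polynomial.eval_prod]
    refine Finset.prod_ne_zero_iff.2 fun x' hx' => ?_
    simp only [Polynomial.eval_sub, Polynomial.eval_X, Polynomial.eval_C]
    exact sub_ne_zero.2 fun h => (Finset.ne_of_mem_erase hx') (ht h).symm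
  · intro x' _ hx'
    have : Polynomial.eval (t x') (∏ x' ∈ Finset.univ.erase x,
        (Polynomial.X - Polynomial.C (t x'))) = 0 := by
      rw [Polynomial.eval_prod]
      exact Finset.prod_eq_zero (Finset.mem_erase.2 ⟨hx', Finset.mem_univ _⟩) (by simp)
    rw [this, zero_smul]
  · intro h
    exact absurd (Finset.mem_univ _) h

theorem vand (t : X → ℂ) (ht : Function.Injective t) (y : X → E)
    (h0 : ∀ j < Fintype.card X, ∑ x, t x ^ j • y x = 0) : ∀ x, y x = 0 := by
  classical
  set P : Polynomial ℂ := ∏ x : X, (Polynomial.X - Polynomial.C (t x)) with hP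
  have hdeg : P.natDegree = Fintype.card X := by
    rw [hP, Polynomial.natDegree_prod_of_monic _ _ (fun x _ => Polynomial.monic_X_sub_C _)]
    simp
  have hmon : P.Monic := Polynomial.monic_prod_of_monic _ _ fun x _ => Polynomial.monic_X_sub_C _
  refine vanish (fun j => P.coeff j • (LinearMap.id : E →ₗ[ℂ] E)) (Fintype.card X) ⊤ ?_ t ht y
    (fun _ => trivial) ?_ h0
  · intro v _ hv
    have h1 : P.coeff (Fintype.card X) = 1 := by
      rw [← hdeg]
      exact hmon
    simpa [h1] using hv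
  · intro x
    have h1 : ∑ j ∈ Finset.range (Fintype.card X + 1), t x ^ j • P.coeff j • y x
        = P.eval (t x) • y x := by
      rw [Polynomial.eval_eq_sum_range, hdeg, Finset.sum_smul]
      refine Finset.sum_congr rfl fun j _ => ?_
      rw [smul_smul, mul_comm]
    have h2 : P.eval (t x) = 0 := by
      rw [hP, Polynomial.eval_prod]
      exact Finset.prod_eq_zero (Finset.mem_univ x) (by simp)
    have h3 : ∑ j ∈ Finset.range (Fintype.card X + 1),
        t x ^ j • (P.coeff j • (LinearMap.id : E →ₗ[ℂ] E)) (y x)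
        = ∑ j ∈ Finset.range (Fintype.card X + 1), t x ^ j • P.coeff j • y x := rfl
    rw [h3, h1, h2, zero_smul]

end lin

/-! ### products -/

variable {X μ κ G : Type} [Group G] [Fintype μ] [Fintype κ]

theorem inj_cp (i : X) : Function.Injective (fun p : μ × G => ((i, p.1), p.2)) := by
  rintro ⟨a, b⟩ ⟨c, d⟩ h
  simpa using h

/-- component -/
noncomputable def cp (μ G : Type) [Group G] [Fintype μ] (i : X) : L2 ((X × μ) × G) →L[ℂ] L2 (μ × G) :=
  KP.pull (fun p : μ × G => ((i, p.1), p.2)) (inj_cp i)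

/-- inclusion of a component -/
noncomputable def ic (i : X) : L2 (μ × G) →L[ℂ] L2 ((X × μ) × G) :=
  KP.push (fun p : μ × G => ((i, p.1), p.2)) (inj_cp i)

theorem cp_apply (i : X) (x : L2 ((X × μ) × G)) (p : μ × G) :
    cp μ G i x p = x ((i, p.1), p.2) := rfl

theorem ic_self (i : X) (y : L2 (μ × G)) (a : μ) (g : G) : ic i y ((i, a), g) = y (a, g) :=
  pushL_apply (fun p : μ × G => ((i, p.1), p.2)) (inj_cp i) y (a, g)

theorem ic_ne {i j : X} (h : j ≠ i) (y : L2 (μ × G)) (a : μ) (g : G) :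
    ic i y ((j, a), g) = 0 := by
  apply pushL_apply_ne
  rintro ⟨b, c⟩ hc
  simp only [Prod.mk.injEq] at hc
  exact h hc.1.1.symm

theorem cp_ic_self (i : X) (y : L2 (μ × G)) : cp μ G i (ic i y) = y := by
  ext ⟨a, g⟩
  exact ic_self i y a g

theorem cp_ic_ne {i j : X} (h : j ≠ i) (y : L2 (μ × G)) : cp μ G j (ic i y) = 0 := by
  ext ⟨a, g⟩
  exact ic_ne h y a g

theorem equi_cp (i : X) : Equi (cp μ G i) := by
  apply equi_of
  intro g x
  ext ⟨a, h⟩
  rfl

/-- the product of subspaces -/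
noncomputable def prodS (Y : X → Submodule ℂ (L2 (μ × G))) : Submodule ℂ (L2 ((X × μ) × G)) :=
  ⨅ i, (Y i).comap (cp μ G i : L2 ((X × μ) × G) →ₗ[ℂ] L2 (μ × G))

theorem mem_prodS (Y : X → Submodule ℂ (L2 (μ × G))) (x : L2 ((X × μ) × G)) :
    x ∈ prodS Y ↔ ∀ i, cp μ G i x ∈ Y i := by
  unfold prodS
  rw [Submodule.mem_iInf]
  rfl

theorem closed_prodS (Y : X → Submodule ℂ (L2 (μ × G)))
    (hY : ∀ i, IsClosed (Y i : Set (L2 (μ × G)))) :
    IsClosed (prodS Y : Set (L2 ((X × μ) × G))) := by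
  have : (prodS Y : Set (L2 ((X × μ) × G))) = ⋂ i, (cp μ G i) ⁻¹' (Y i : Set (L2 (μ × G))) := by
    ext x
    rw [SetLike.mem_coe, mem_prodS, Set.mem_iInter]
    rfl
  rw [this]
  exact isClosed_iInter fun i => (hY i).preimage (cp μ G i).continuous

theorem linv_prodS (Y : X → Submodule ℂ (L2 (μ × G))) (hY : ∀ i, LInv (Y i)) :
    LInv (prodS Y) := by
  apply linv_of
  intro g x hx
  rw [mem_prodS] at hx ⊢
  intro i
  rw [equi_lt (equi_cp i)]
  exact linv_lt (hY i) g (hx i)

theorem vdim_prodS [Fintype X] (Y : X → Submodule ℂ (L2 (μ × G)))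
    (hY : ∀ i, IsClosed (Y i : Set (L2 (μ × G)))) : vdim (prodS Y) = ∑ i, vdim (Y i) := by
  classical
  choose u hu hu2 hu3 using fun i => exists_vec (hY i)
  rw [vdim_of_vec (closed_prodS Y hY) (fun p => ic p.1 (u p.1 p.2)), Fintype.sum_prod_type]
  · refine Finset.sum_congr rfl fun i _ => ?_
    rw [hu3 i]
    refine Finset.sum_congr rfl fun a _ => ?_
    rw [ic_self]
  · rintro ⟨i, a⟩
    rw [mem_prodS]
    intro j
    by_cases hj : j = i
    · subst hj
      rw [cp_ic_self]
      exact hu j a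
    · rw [cp_ic_ne hj]
      exact Submodule.zero_mem _
  · rintro ⟨i, a⟩ x hx
    rw [mem_prodS] at hx
    show ⟪ic i (u i a), x⟫_ℂ = x ((i, a), 1)
    rw [ic, KP.push, ContinuousLinearMap.adjoint_inner_left]
    exact hu2 i a _ (hx i)

/-- the power sums -/
noncomputable def Pw [Fintype X] (μ G : Type) [Fintype μ] [Group G] (t : X → ℂ) (e : ℕ) :
    L2 ((X × μ) × G) →L[ℂ] L2 ((Fin e × μ) × G) :=
  ∑ j : Fin e, (ic j).comp (∑ x : X, t x ^ (j : ℕ) • cp μ G x)

theorem cp_Pw [Fintype X] (t : X → ℂ) (e : ℕ) (j : Fin e) (x : L2 ((X × μ) × G)) :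
    cp μ G j (Pw μ G t e x) = ∑ i : X, t i ^ (j : ℕ) • cp μ G i x := by
  classical
  unfold Pw
  rw [_root_.sum_apply, map_sum, Finset.sum_eq_single j]
  · rw [ContinuousLinearMap.comp_apply, cp_ic_self, _root_.sum_apply]
    rfl
  · intro k _ hk
    rw [ContinuousLinearMap.comp_apply, cp_ic_ne (Ne.symm hk)]
  · intro h
    exact absurd (Finset.mem_univ _) h

theorem ext_cp {x y : L2 ((X × μ) × G)} (h : ∀ i, cp μ G i x = cp μ G i y) : x = y := by
  ext ⟨⟨i, a⟩, g⟩
  have := congrArg (fun z : L2 (μ × G) => z (a, g)) (h i)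
  exact this

theorem equi_Pw [Fintype X] (t : X → ℂ) (e : ℕ) : Equi (Pw μ G t e) := by
  apply equi_of
  intro g x
  apply ext_cp
  intro j
  rw [cp_Pw, equi_lt (equi_cp j), cp_Pw, map_sum]
  refine Finset.sum_congr rfl fun i _ => ?_
  rw [equi_lt (equi_cp i), map_smul]

theorem indep_le [Fintype X] (t : X → ℂ) (e : ℕ) (Y : X → Submodule ℂ (L2 (μ × G)))
    (hY : ∀ i, IsClosed (Y i : Set (L2 (μ × G)))) (hYi : ∀ i, LInv (Y i))
    (h : ∀ y : X → L2 (μ × G), (∀ x, y x ∈ Y x) → (∀ j < e, ∑ x, t x ^ j • y x = 0) →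
      ∀ x, y x = 0) : ∑ i, vdim (Y i) ≤ e * Fintype.card μ := by
  classical
  have h1 := vdim_inj_le (closed_prodS Y hY) (linv_prodS Y hYi) (Pw μ G t e) (equi_Pw t e)
    (R := ⊤) isClosed_univ (fun _ _ => trivial) (by
      intro x hx hx0
      apply ext_cp
      intro i
      rw [map_zero]
      refine h (fun i => cp μ G i x) ((mem_prodS Y x).1 hx) (fun j hj => ?_) i
      have h2 := cp_Pw t e ⟨j, hj⟩ x
      rw [hx0, map_zero] at h2
      exact h2.symm)
  rw [vdim_prodS Y hY, vdim_top, Fintype.card_prod, Fintype.card_fin] at h1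
  exact_mod_cast h1

/-- **The excess inequality**, abstract form. -/
theorem excess (K : ℂ → Submodule ℂ (L2 (μ × G))) (hK : ∀ z, IsClosed (K z : Set (L2 (μ × G))))
    (hKi : ∀ z, LInv (K z)) (w : ℂ) (s s' : Finset ℂ) (hw : w ∉ s) (hw' : w ∉ s')
    (hd : Disjoint s' s)
    (B : ℕ → L2 (μ × G) →ₗ[ℂ] L2 (κ × G))
    (hB : ∀ z, z ≠ w → ∀ y ∈ K z,
      ∑ j ∈ Finset.range (s'.card + 1), ((w - z)⁻¹) ^ j • B j y = 0)
    (hBe : ∀ y, B s'.card y = 0 → y ∈ K w) :
    ∑ z ∈ s', vdim (K z) + ∑ z ∈ s, (vdim (K z) - vdim (K w)) ≤ s'.card * Fintype.card μ := by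
  classical
  have iN := hasProj (hK w)
  let Y : s' ⊕ s → Submodule ℂ (L2 (μ × G)) := Sum.elim (fun z => K z) (fun z => K z ⊓ (K w)ᗮ)
  let t : s' ⊕ s → ℂ := Sum.elim (fun z => (w - z)⁻¹) (fun z => (w - z)⁻¹)
  have hs : ∀ z : s, (z : ℂ) ≠ w := fun z h => hw (h ▸ z.2)
  have hs' : ∀ z : s', (z : ℂ) ≠ w := fun z h => hw' (h ▸ z.2)
  have h2 : ∀ a b : ℂ, (w - a)⁻¹ = (w - b)⁻¹ → a = b := by
    intro a b hab
    have := inv_injective hab
    have h3 : a - b = (w - b) - (w - a) := by ring
    rw [← sub_eq_zero, h3, this, sub_self]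
  have ht : Function.Injective t := by
    rintro (a | a) (b | b) hab
    · exact congrArg Sum.inl (Subtype.ext (h2 _ _ hab))
    · exact absurd (h2 _ _ hab) (fun h => Finset.disjoint_left.1 hd a.2 (h ▸ b.2))
    · exact absurd (h2 _ _ hab) (fun h => Finset.disjoint_left.1 hd b.2 (h ▸ a.2))
    · exact congrArg Sum.inr (Subtype.ext (h2 _ _ hab))
  have h1 : ∑ x, vdim (Y x) ≤ s'.card * Fintype.card μ := by
    apply indep_le t s'.card Y
    · rintro (z | z)
      · exact hK z
      · exact isClosed_inf (hK z) (isClosed_orth _)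
    · rintro (z | z)
      · exact hKi z
      · exact linv_inf (hKi z) (linv_orth (hKi w))
    · intro y hy h0
      have hall : ∀ x, y x ∈ (K w)ᗮ := by
        have hsome : ∀ z : s, y (Sum.inr z) ∈ (K w)ᗮ := fun z => (hy (Sum.inr z)).2
        have hE : ∀ z : s, (K w).starProjection (y (Sum.inr z)) = 0 := fun z =>
          (Submodule.starProjection_apply_eq_zero_iff _).2 (hsome z)
        have h3 : ∀ z : s', (K w).starProjection (y (Sum.inl z)) = 0 := by
          refine vand (fun z : s' => (w - (z : ℂ))⁻¹) (fun a b hab => Subtype.ext (h2 _ _ hab))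
            (fun z => (K w).starProjection (y (Sum.inl z))) ?_
          intro j hj
          rw [Fintype.card_coe] at hj
          have h4 := congrArg (K w).starProjection (h0 j hj)
          rw [map_zero, map_sum, Fintype.sum_sum_type] at h4
          simp only [map_smul, hE, smul_zero, Finset.sum_const_zero, add_zero] at h4
          exact h4
        rintro (z | z)
        · exact (Submodule.starProjection_apply_eq_zero_iff _).1 (h3 z)
        · exact hsome z
      refine vanish B s'.card (K w)ᗮ ?_ t ht y hall ?_ h0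
      · intro v hv hBv
        have h3 := hBe v hBv
        have h4 : v ∈ K w ⊓ (K w)ᗮ := ⟨h3, hv⟩
        rwa [Submodule.inf_orthogonal_eq_bot, Submodule.mem_bot] at h4
      · rintro (z | z)
        · exact hB z (hs' z) _ (hy (Sum.inl z))
        · exact hB z (hs z) _ (hy (Sum.inr z)).1
  rw [Fintype.sum_sum_type] at h1
  have h5 : ∑ z ∈ s, (vdim (K z) - vdim (K w)) ≤ ∑ z : s, vdim (Y (Sum.inr z)) := by
    rw [← Finset.sum_coe_sort s]
    refine Finset.sum_le_sum fun z _ => ?_
    have h3 := vdim_rank_le (hK z) (hKi z) (K w).starProjection (equi_proj (hKi w)) (hK w)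
      (fun x _ => Submodule.starProjection_apply_mem _ _)
    have h4 : kr (K w).starProjection = (K w)ᗮ := by
      ext x
      rw [mem_kr, Submodule.starProjection_apply_eq_zero_iff]
    rw [h4] at h3
    show vdim (K z) - vdim (K w) ≤ vdim (K z ⊓ (K w)ᗮ)
    linarith
  have h3 : ∑ z ∈ s', vdim (K z) = ∑ z : s', vdim (Y (Sum.inl z)) := by
    rw [← Finset.sum_coe_sort s']
    rfl
  rw [h3]
  linarith

end Q23.AS
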