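import Pool.Agent.Q23.AS.N2
import Pool.Agent.Q23.AS.N4
import Pool.Agent.W649.ZL.Mat

/-!
Families of matrices over the complex group ring which depend polynomially on parameters.
-/

set_option autoImplicit false
set_option linter.unusedSectionVars false

namespace Q23.AS

open MvPolynomial

universe u z z'

section comp
variable {ι : Type z} [Fintype ι] {κ : Type z'} [Fintype κ]

theorem USC.comp {K : (ι → ℂ) → ℝ} (hK : USC K) (Φ : ι → MvPolynomial κ ℂ) :
    USC (fun z : κ → ℂ => K (fun i => aeval z (Φ i))) := by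
  intro d
  apply subset_antisymm
  · intro z hz
    have h1 : (fun i => aeval z (Φ i)) ∈ zeroLocus ℂ (vanishingIdeal ℂ {p | d ≤ K p}) := by
      intro p hp
      have h3 : ∀ y : κ → ℂ, aeval (fun i => aeval y (Φ i)) p = aeval y (bind₁ Φ p) := by
        intro y
        rw [aeval_bind₁]
      rw [h3]
      apply hz
      intro y hy
      rw [← h3]
      exact hp _ hy
    rw [hK d] at h1
    exact h1
  · exact zeroLocus_vanishingIdeal_le _

end comp

section mat
variable {G : Type u} [Group G]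

open Pool.Agent.W649.ZL in
theorem usc_kd {I J ι : Type*} [Fintype I] [Fintype J] [Fintype ι]
    (A : ι → EE G J →L[ℂ] EE G I) (hA : ∀ i, Eqv (A i)) : USC (kd A) :=
  fun d => locus_closed A hA d

/-- the kernel dimension of the matrices with coefficients in a finite set, as a function of the
coefficients -/
noncomputable def kT {m n : ℕ} (T : Finset G) : (T × Fin m × Fin n → ℂ) → ℝ :=
  Pool.Agent.W649.ZL.kd (Pool.Agent.W649.ZL.famR (fun i : T × Fin m × Fin n => (i.1 : G))
      (fun i => i.2.1) (fun i => i.2.2))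

theorem usc_kT {m n : ℕ} (T : Finset G) : USC (kT (m := m) (n := n) T) :=
  usc_kd _ (Pool.Agent.W649.ZL.famR_eqv _ _ _)

end mat

/-! ### one parameter -/

section one

open Pool.Agent.W656.VA
open Pool.Agent.H80R2
open Pool.Agent.H80R2.BC (L2 GMat vdim IsTr LInv Equi act kerA Coef)
open Pool.Agent.H812R3

variable {G : Type} [Group G] {m n : ℕ} {R : Type} [Zero R]

/-- apply a function to all coefficients -/
noncomputable def mapR (f : R → ℂ) (hf : f 0 = 0) (A : Matrix (Fin m) (Fin n) (G →₀ R)) :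
    Matrix (Fin m) (Fin n) (G →₀ ℂ) := fun i j => (A i j).mapRange f hf

theorem act_mapR (f : R → ℂ) (hf : f 0 = 0) (A : Matrix (Fin m) (Fin n) (G →₀ R))
    (T : Finset G) (hT : ∀ i j, (A i j).support ⊆ T) (x : Fin m × G → ℂ) (k : Fin n) (g : G) :
    act (cv (mapR f hf A)) x k g = ∑ i, ∑ h ∈ T, f (A i k h) * x (i, g * h⁻¹) := by
  unfold act cv mapR
  refine Finset.sum_congr rfl fun i _ => ?_
  rw [Finsupp.sum_mapDomain_index (by intro b; simp) (by intro b c d; ring),
    Finsupp.sum_mapRange_index (by intro b; simp), Finsupp.sum]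
  refine Finset.sum_subset (hT i k) fun h _ hh => ?_
  rw [Finsupp.notMem_support_iff.1 hh, hf, zero_mul]

theorem eval_shift (p : Polynomial ℂ) (e : ℕ) (hp : p.natDegree ≤ e) (w z : ℂ) (h : z ≠ w) :
    ∑ j ∈ Finset.range (e + 1), ((w - z)⁻¹) ^ j *
      (p.comp (Polynomial.C w - Polynomial.X)).coeff (e - j) = ((w - z)⁻¹) ^ e * p.eval z := by
  have h0 : w - z ≠ 0 := sub_ne_zero.2 h.symm
  set q := p.comp (Polynomial.C w - Polynomial.X) with hq
  have hdeg : q.natDegree < e + 1 := by
    have h1 : (Polynomial.C w - Polynomial.X : Polynomial ℂ).natDegree ≤ 1 := by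
      refine (Polynomial.natDegree_sub_le _ _).trans ?_
      simp
    have h2 : q.natDegree ≤ p.natDegree * 1 := by
      rw [hq]
      exact Polynomial.natDegree_comp_le.trans (Nat.mul_le_mul_left _ h1)
    omega
  have h1 : p.eval z = q.eval (w - z) := by
    rw [hq, Polynomial.eval_comp]
    simp
  rw [h1, Polynomial.eval_eq_sum_range' hdeg, Finset.mul_sum,
    ← Finset.sum_range_reflect (fun j => ((w - z)⁻¹) ^ j * q.coeff (e - j))]
  refine Finset.sum_congr rfl fun j hj => ?_
  rw [Finset.mem_range] at hj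
  have e1 : e + 1 - 1 - j = e - j := by omega
  have e2 : e - (e - j) = j := by omega
  rw [e1, e2]
  have e3 : ((w - z)⁻¹) ^ e = ((w - z)⁻¹) ^ (e - j) * ((w - z)⁻¹) ^ j := by
    rw [← pow_add]; congr 1; omega
  rw [e3]
  have e4 : ((w - z)⁻¹) ^ j * (w - z) ^ j = 1 := by
    rw [← mul_pow, inv_mul_cancel₀ h0, one_pow]
  linear_combination (- ((w - z)⁻¹) ^ (e - j) * q.coeff j) * e4

theorem one_parameter (A : Matrix (Fin m) (Fin n) (G →₀ Polynomial ℂ)) (s s' : Finset ℂ)
    (hA : ∀ i j g, (A i j g).natDegree ≤ s'.card) (w : ℂ) (hw : w ∉ s)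
    (hw' : w ∉ s') (hd : Disjoint s' s) :
    ∑ z ∈ s', kerDim (mapR (fun p : Polynomial ℂ => p.eval z) Polynomial.eval_zero A) +
      ∑ z ∈ s, (kerDim (mapR (fun p : Polynomial ℂ => p.eval z) Polynomial.eval_zero A) -
        kerDim (mapR (fun p : Polynomial ℂ => p.eval w) Polynomial.eval_zero A))
        ≤ s'.card * m := by
  classical
  obtain ⟨T, hT⟩ : ∃ T : Finset G, ∀ i j, (A i j).support ⊆ T := by
    refine ⟨Finset.univ.biUnion fun i => Finset.univ.biUnion fun j => (A i j).support, ?_⟩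
    intro i j x hx
    exact Finset.mem_biUnion.2 ⟨i, Finset.mem_univ _, Finset.mem_biUnion.2
      ⟨j, Finset.mem_univ _, hx⟩⟩
  let K : ℂ → Submodule ℂ (L2 (Fin m × G)) := fun z =>
    kerA (cv (mapR (fun p : Polynomial ℂ => p.eval z) Polynomial.eval_zero A))
  have h0 : ∀ j, ((0 : Polynomial ℂ).comp (Polynomial.C w - Polynomial.X)).coeff (s'.card - j) = 0 := by
    intro j
    rw [Polynomial.zero_comp, Polynomial.coeff_zero]
  let B : ℕ → L2 (Fin m × G) →L[ℂ] L2 (Fin n × G) := fun j =>
    op (cv (mapR (fun p : Polynomial ℂ =>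
      (p.comp (Polynomial.C w - Polynomial.X)).coeff (s'.card - j)) (h0 j) A))
  have hmain := excess (κ := Fin n) K (fun z => isClosed_kerA _) (fun z => linv_kerA _) w s s'
    hw hw' hd (fun j => (B j : L2 (Fin m × G) →ₗ[ℂ] L2 (Fin n × G))) ?_ ?_
  · simp only [kerDim_eq]
    rw [Fintype.card_fin] at hmain
    exact hmain
  · intro z hz y hy
    ext ⟨k, g⟩
    have h1 : (∑ j ∈ Finset.range (s'.card + 1), ((w - z)⁻¹) ^ j •
        (B j : L2 (Fin m × G) →ₗ[ℂ] L2 (Fin n × G)) y) (k, g)
        = ∑ j ∈ Finset.range (s'.card + 1), ((w - z)⁻¹) ^ j * act (cv (mapR (fun p : Polynomial ℂ =>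
          (p.comp (Polynomial.C w - Polynomial.X)).coeff (s'.card - j)) (h0 j) A)) y k g := by
      rw [lp.coeFn_sum, Finset.sum_apply]
      refine Finset.sum_congr rfl fun j _ => ?_
      rw [lp.coeFn_smul, Pi.smul_apply, smul_eq_mul]
      congr 1
      exact op_apply _ _ _ _
    rw [h1, lp.coeFn_zero, Pi.zero_apply]
    have h2 : ∀ j, act (cv (mapR (fun p : Polynomial ℂ =>
          (p.comp (Polynomial.C w - Polynomial.X)).coeff (s'.card - j)) (h0 j) A)) y k g
        = ∑ i, ∑ h ∈ T, ((A i k h).comp (Polynomial.C w - Polynomial.X)).coeff (s'.card - j)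
          * y (i, g * h⁻¹) := fun j => act_mapR _ _ A T hT y k g
    simp only [h2, Finset.mul_sum]
    rw [Finset.sum_comm]
    have h3 : ∀ i : Fin m, ∑ j ∈ Finset.range (s'.card + 1), ∑ h ∈ T, ((w - z)⁻¹) ^ j *
        (((A i k h).comp (Polynomial.C w - Polynomial.X)).coeff (s'.card - j) * y (i, g * h⁻¹))
        = ((w - z)⁻¹) ^ s'.card * ∑ h ∈ T, (A i k h).eval z * y (i, g * h⁻¹) := by
      intro i
      rw [Finset.sum_comm, Finset.mul_sum]
      refine Finset.sum_congr rfl fun h _ => ?_
      rw [← mul_assoc, ← eval_shift (A i k h) s'.card (hA i k h) w z hz, Finset.sum_mul]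
      exact Finset.sum_congr rfl fun j _ => by ring
    rw [Finset.sum_congr rfl fun i _ => h3 i, ← Finset.mul_sum]
    have h4 := act_mapR (fun p : Polynomial ℂ => p.eval z) Polynomial.eval_zero A T hT y k g
    rw [← h4, (mem_kerA _ _).1 hy k g, mul_zero]
  · intro y hy
    rw [mem_kerA]
    intro k g
    have h1 : B s'.card y = 0 := hy
    have h2 : B s'.card y (k, g) = act (cv (mapR (fun p : Polynomial ℂ =>
          (p.comp (Polynomial.C w - Polynomial.X)).coeff (s'.card - s'.card)) (h0 s'.card) A)) y k g :=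
      op_apply _ _ _ _
    rw [h1, lp.coeFn_zero, Pi.zero_apply, act_mapR _ _ A T hT] at h2
    rw [act_mapR _ _ A T hT]
    have h3 : ∀ p : Polynomial ℂ, (p.comp (Polynomial.C w - Polynomial.X)).coeff (s'.card - s'.card)
        = p.eval w := by
      intro p
      rw [Nat.sub_self, Polynomial.coeff_zero_eq_eval_zero, Polynomial.eval_comp]
      simp
    simp only [h3] at h2
    exact h2.symm

end one

end Q23.AS
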